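import Mathlib

/-!
# [H60 AT Abs] principal parts are multiplied by powers of an extremal principal part, twisted form (MP_e49dc9_ag, abundance)

`F` is the field of constants, `K` the function field of a surface `Y`, `Q` a torsion class on `Y`.  `Ni e n`: the sections of `e Q` with a
pole of order at most `n` along the ample curve and arbitrary poles along the components `v i` of the divisor `W = ∑ w i`; `u i` is the order
of the equation of `Q` at `v i`, `th` the equation of `t Q`.  `L e j n`: the functions of `Ni e n` with poles bounded by `j W`, `lam e n`: the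
leading coefficient along the ample curve, `Gam e j n`: the sections on the ample curve.
-/

set_option autoImplicit false

namespace Pool.Agent.H60.AT

/-- the data -/
structure PP (F K κ ι : Type) [Field F] [Field K] [Field κ] [Algebra F K] [Algebra F κ] where
  v : ι → K → ℤ
  w : ι → ℤ
  u : ι → ℤ
  t : ℕ
  th : K
  Ni : ℕ → ℕ → Submodule F K
  lam : ℕ → ℕ → K → κ
  Gam : ℕ → ℕ → ℕ → Submodule F κ
  v_mul : ∀ i f g, f ≠ 0 → g ≠ 0 → v i (f * g) = v i f + v i g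
  v_add : ∀ i f g, f ≠ 0 → g ≠ 0 → f + g ≠ 0 → min (v i f) (v i g) ≤ v i (f + g)
  v_c : ∀ i (c : F), c ≠ 0 → v i (algebraMap F K c) = 0
  w_pos : ∀ i, 0 < w i
  t_pos : 0 < t
  th_ne : th ≠ 0
  v_th : ∀ i, v i th = (t : ℤ) * u i
  th_Ni : ∀ e n f, f ∈ Ni (e + t) n → th * f ∈ Ni e n
  one : (1 : K) ∈ Ni 0 0
  mul : ∀ e e' n m f g, f ∈ Ni e n → g ∈ Ni e' m → f * g ∈ Ni (e + e') (n + m)
  mono : ∀ e n, Ni e n ≤ Ni e (n + 1)
  lam_add : ∀ e n f g, f ∈ Ni e n → g ∈ Ni e n → lam e n (f + g) = lam e n f + lam e n g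
  lam_smul : ∀ e n (c : F) f, f ∈ Ni e n → lam e n (c • f) = c • lam e n f
  lam_mul : ∀ e e' n m f g, f ∈ Ni e n → g ∈ Ni e' m → lam (e + e') (n + m) (f * g) = lam e n f * lam e' m g
  lam_ker : ∀ e n f, f ∈ Ni e (n + 1) → (lam e (n + 1) f = 0 ↔ f ∈ Ni e n)

variable {F K κ ι : Type} [Field F] [Field K] [Field κ] [Algebra F K] [Algebra F κ]

namespace PP

variable (D : PP F K κ ι)

theorem v_one (i : ι) : D.v i 1 = 0 := by
  have := D.v_c i 1 one_ne_zero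
  rwa [map_one] at this

theorem v_smul (i : ι) (c : F) (f : K) (hc : c ≠ 0) (hf : f ≠ 0) : D.v i (c • f) = D.v i f := by
  rw [Algebra.smul_def, D.v_mul i _ _ ((map_ne_zero _).2 hc) hf, D.v_c i c hc, zero_add]

theorem v_neg (i : ι) (f : K) (hf : f ≠ 0) : D.v i (-f) = D.v i f := by
  have h := D.v_smul i (-1 : F) f (neg_ne_zero.2 one_ne_zero) hf
  rwa [neg_smul, one_smul] at h

/-- the functions with `b i ≤ c (v i + e u i)` -/
def VV (e : ℕ) (c : ℤ) (hc : 0 ≤ c) (b : ι → ℤ) : Submodule F K where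
  carrier := {f | ∀ i, f ≠ 0 → b i ≤ c * (D.v i f + e * D.u i)}
  zero_mem' := fun i h => absurd rfl h
  add_mem' := by
    intro f g hf hg i h
    by_cases h1 : f = 0
    · rw [h1, zero_add] at h ⊢; exact hg i h
    by_cases h2 : g = 0
    · rw [h2, add_zero] at h ⊢; exact hf i h
    have h3 := D.v_add i f g h1 h2 h
    have h4 := hf i h1
    have h5 := hg i h2
    rcases min_le_iff.1 h3 with h6 | h6
    · exact h4.trans (mul_le_mul_of_nonneg_left (by linarith) hc)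
    · exact h5.trans (mul_le_mul_of_nonneg_left (by linarith) hc)
  smul_mem' := by
    intro a f hf i h
    have ha : a ≠ 0 := fun h0 => h (by rw [h0, zero_smul])
    have h1 : f ≠ 0 := fun h0 => h (by rw [h0, smul_zero])
    rw [D.v_smul i a f ha h1]
    exact hf i h1

theorem mem_VV {e : ℕ} {c : ℤ} {hc : 0 ≤ c} {b : ι → ℤ} {f : K} :
    f ∈ D.VV e c hc b ↔ ∀ i, f ≠ 0 → b i ≤ c * (D.v i f + e * D.u i) := Iff.rfl

theorem VV_mul {e e' : ℕ} {c : ℤ} {hc : 0 ≤ c} {b b' : ι → ℤ} {f g : K} (hf : f ∈ D.VV e c hc b)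
    (hg : g ∈ D.VV e' c hc b') : f * g ∈ D.VV (e + e') c hc (fun i => b i + b' i) := by
  intro i h
  have h1 : f ≠ 0 := left_ne_zero_of_mul h
  have h2 : g ≠ 0 := right_ne_zero_of_mul h
  rw [D.v_mul i f g h1 h2]
  have h3 := hf i h1
  have h4 := hg i h2
  push_cast
  nlinarith

theorem VV_mono {e : ℕ} {c : ℤ} {hc : 0 ≤ c} {b b' : ι → ℤ} (h : ∀ i, b' i ≤ b i) : D.VV e c hc b ≤ D.VV e c hc b' :=
  fun _ hf i h0 => (h i).trans (hf i h0)

/-- the functions with poles bounded by `j W + n Γ` -/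
def L (e j n : ℕ) : Submodule F K := D.Ni e n ⊓ D.VV e 1 zero_le_one (fun i => -(j : ℤ) * D.w i)

theorem mem_L {e j n : ℕ} {f : K} :
    f ∈ D.L e j n ↔ f ∈ D.Ni e n ∧ ∀ i, f ≠ 0 → -(j : ℤ) * D.w i ≤ D.v i f + e * D.u i := by
  constructor
  · rintro ⟨h1, h2⟩
    exact ⟨h1, fun i h => by have := h2 i h; rwa [one_mul] at this⟩
  · rintro ⟨h1, h2⟩
    exact ⟨h1, fun i h => by rw [one_mul]; exact h2 i h⟩

theorem mono' {e n m : ℕ} (h : n ≤ m) : D.Ni e n ≤ D.Ni e m := by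
  induction h with
  | refl => exact le_rfl
  | step _ ih => exact ih.trans (D.mono _ _)

theorem L_mono {e j j' n n' : ℕ} (h : j ≤ j') (h' : n ≤ n') : D.L e j n ≤ D.L e j' n' := by
  intro f hf
  rw [D.mem_L] at hf ⊢
  refine ⟨D.mono' h' hf.1, fun i h0 => ?_⟩
  have h1 := hf.2 i h0
  have h2 := D.w_pos i
  have h3 : (j : ℤ) ≤ j' := by exact_mod_cast h
  nlinarith

theorem L_mul {e e' j j' n n' : ℕ} {f g : K} (hf : f ∈ D.L e j n) (hg : g ∈ D.L e' j' n') :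
    f * g ∈ D.L (e + e') (j + j') (n + n') := by
  rw [D.mem_L] at hf hg ⊢
  refine ⟨D.mul _ _ _ _ _ _ hf.1 hg.1, fun i h0 => ?_⟩
  have h1 : f ≠ 0 := left_ne_zero_of_mul h0
  have h2 : g ≠ 0 := right_ne_zero_of_mul h0
  rw [D.v_mul i f g h1 h2]
  have h3 := hf.2 i h1
  have h4 := hg.2 i h2
  push_cast
  linarith

theorem L_VV {e n : ℕ} {f : K} (c : ℤ) (hc : 0 ≤ c) (hf : f ∈ D.L e 0 n) : f ∈ D.VV e c hc (fun _ => 0) := by
  intro i h0
  have h1 := (D.mem_L.1 hf).2 i h0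
  simp only [Nat.cast_zero, neg_zero, zero_mul] at h1
  exact mul_nonneg hc h1

/-- multiplication by powers of `th` -/
theorem th_pow_Ni (q e n : ℕ) (f : K) (hf : f ∈ D.Ni (e + q * D.t) n) : D.th ^ q * f ∈ D.Ni e n := by
  induction q generalizing f with
  | zero => simpa using hf
  | succ q ih =>
    have h1 : f ∈ D.Ni (e + q * D.t + D.t) n := by
      have : e + (q + 1) * D.t = e + q * D.t + D.t := by ring
      rwa [this] at hf
    have h2 := ih _ (D.th_Ni _ _ _ h1)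
    have h3 : D.th ^ (q + 1) * f = D.th ^ q * (D.th * f) := by ring
    rwa [h3]

theorem v_th_pow (i : ι) (q : ℕ) : D.v i (D.th ^ q) = (q : ℤ) * D.t * D.u i := by
  induction q with
  | zero =>
    rw [pow_zero, D.v_one]
    simp
  | succ q ih =>
    rw [pow_succ, D.v_mul i _ _ (pow_ne_zero _ D.th_ne) D.th_ne, ih, D.v_th]
    push_cast
    ring

/-- powers of `L 0 0 1` -/
theorem pow_L (N : ℕ) : (D.L 0 0 1) ^ N ≤ D.L 0 0 N := by
  induction N with
  | zero =>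
    rw [pow_zero, Submodule.one_eq_range]
    rintro f ⟨a, rfl⟩
    rw [D.mem_L]
    refine ⟨?_, fun i h0 => ?_⟩
    · have : (Algebra.linearMap F K) a = a • (1 : K) := by
        rw [Algebra.linearMap_apply, Algebra.algebraMap_eq_smul_one]
      rw [this]
      exact (D.Ni 0 0).smul_mem a D.one
    · have h1 : a ≠ 0 := fun h => h0 (by rw [h, map_zero])
      rw [Algebra.linearMap_apply, D.v_c i a h1]
      simp
  | succ N ih =>
    rw [pow_succ]
    intro f hf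
    refine Submodule.mul_induction_on hf (fun x hx y hy => ?_) (fun x y hx hy => Submodule.add_mem _ hx hy)
    have := D.L_mul (ih hx) hy
    simpa using this

/-- the sections of `Ni 1 1` whose leading coefficient is a section of `Gam 1 0 1` -/
def H : Submodule F K where
  carrier := {f | f ∈ D.Ni 1 1 ∧ D.lam 1 1 f ∈ D.Gam 1 0 1}
  zero_mem' := by
    refine ⟨Submodule.zero_mem _, ?_⟩
    have := D.lam_smul 1 1 (0 : F) 0 (Submodule.zero_mem _)
    rw [zero_smul, zero_smul] at this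
    rw [this]
    exact Submodule.zero_mem _
  add_mem' := by
    rintro f g ⟨h1, h2⟩ ⟨h3, h4⟩
    exact ⟨Submodule.add_mem _ h1 h3, by rw [D.lam_add 1 1 f g h1 h3]; exact Submodule.add_mem _ h2 h4⟩
  smul_mem' := by
    rintro a f ⟨h1, h2⟩
    exact ⟨Submodule.smul_mem _ a h1, by rw [D.lam_smul 1 1 a f h1]; exact Submodule.smul_mem _ a h2⟩

/-- the sections `h` of `Ni 1 n` with `x h ∈ L 1 a (N + n) + Ni 1 N` for all `x ∈ (L 0 0 1) ^ N` -/
def HH (a N n : ℕ) : Submodule F K where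
  carrier := {h | h ∈ D.Ni 1 n ∧ ∀ x ∈ (D.L 0 0 1) ^ N, x * h ∈ D.L 1 a (N + n) ⊔ D.Ni 1 N}
  zero_mem' := ⟨Submodule.zero_mem _, fun x _ => by rw [mul_zero]; exact Submodule.zero_mem _⟩
  add_mem' := by
    rintro f g ⟨h1, h2⟩ ⟨h3, h4⟩
    exact ⟨Submodule.add_mem _ h1 h3, fun x hx => by rw [mul_add]; exact Submodule.add_mem _ (h2 x hx) (h4 x hx)⟩
  smul_mem' := by
    rintro a f ⟨h1, h2⟩
    exact ⟨Submodule.smul_mem _ a h1, fun x hx => by rw [mul_smul_comm]; exact Submodule.smul_mem _ a (h2 x hx)⟩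

/-- the hypotheses on the sections -/
structure Ax (d : ℕ) : Prop where
  fL : ∀ j n, (D.L 1 j n).FG
  fG : ∀ j n, (D.Gam 1 j n).FG
  un : ∀ n f, f ∈ D.Ni 1 n → ∃ j, f ∈ D.L 1 j n
  R : (D.Ni 1 0).FG
  lamG0 : ∀ f, f ∈ D.L 0 0 1 → D.lam 0 1 f ∈ D.Gam 0 0 1
  lamG : ∀ j n f, f ∈ D.L 1 j n → D.lam 1 n f ∈ D.Gam 1 j n
  mulG : ∀ g g', g ∈ D.Gam 0 0 1 → g' ∈ D.Gam 1 0 1 → g * g' ∈ D.Gam 1 0 2
  sat : ∀ a N n g, (∀ x ∈ (D.L 0 0 1) ^ N, D.lam 0 N x * g ∈ D.Gam 1 a (N + n)) → g ∈ D.Gam 1 a n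
  H1 : ∀ g ∈ D.Gam 1 0 1, ∃ f ∈ D.Ni 1 1, D.lam 1 1 f = g
  Y1 : ∀ n, 2 ≤ n → ∀ g ∈ D.Gam 1 0 n, ∃ f ∈ D.L 1 0 n, D.lam 1 n f = g
  H4 : ∀ j n, 1 ≤ n → Module.finrank F (D.Gam 1 j n) ≤ Module.finrank F (D.Gam 1 0 n) + j * d
  H4' : ∃ j₁, ∀ j, j₁ ≤ j → Module.finrank F (D.Gam 1 j 1) + 1 ≤ Module.finrank F (D.Gam 1 0 1) + j * d
  AS : ∀ j, ∃ m₀, ∀ m, m₀ ≤ m → Module.finrank F (D.L 1 0 m) + j * m * d ≤ Module.finrank F (D.L 1 j m)

end PP

end Pool.Agent.H60.AT
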