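import Pool.Agent.H60.AT.Abs

/-!
# [H60 AT Prd] products of principal parts, twisted form (MP_e49dc9_ag, abundance)
-/

set_option autoImplicit false

namespace Pool.Agent.H60.AT

variable {F K κ ι : Type} [Field F] [Field K] [Field κ] [Algebra F K] [Algebra F κ]

namespace PP

variable (D : PP F K κ ι) {d : ℕ}

theorem lam_sub (e n : ℕ) (f g : K) (hf : f ∈ D.Ni e n) (hg : g ∈ D.Ni e n) :
    D.lam e n (f - g) = D.lam e n f - D.lam e n g := by
  have h := D.lam_add e n (f - g) g (Submodule.sub_mem _ hf hg) hg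
  rw [sub_add_cancel] at h
  exact eq_sub_of_add_eq h.symm

/-- `u f = g + π` -/
theorem gp (ax : D.Ax d) {f u : K} (hf : f ∈ D.H) (hu : u ∈ D.L 0 0 1) :
    ∃ g ∈ D.L 1 0 2, ∃ π ∈ D.Ni 1 1, u * f = g + π ∧
      ∀ (c : ℤ) (hc : 0 ≤ c) (b : ι → ℤ), (∀ i, b i ≤ 0) → f ∈ D.VV 1 c hc b → π ∈ D.VV 1 c hc b := by
  have hu1 : u ∈ D.Ni 0 1 := (D.mem_L.1 hu).1
  have h1 : u * f ∈ D.Ni 1 2 := D.mul 0 1 1 1 u f hu1 hf.1
  have h2 : D.lam 1 2 (u * f) = D.lam 0 1 u * D.lam 1 1 f := D.lam_mul 0 1 1 1 u f hu1 hf.1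
  have h3 : D.lam 1 2 (u * f) ∈ D.Gam 1 0 2 := by
    rw [h2]; exact ax.mulG _ _ (ax.lamG0 u hu) hf.2
  obtain ⟨g, hg, hg2⟩ := ax.Y1 2 le_rfl _ h3
  have hg1 : g ∈ D.Ni 1 2 := (D.mem_L.1 hg).1
  refine ⟨g, hg, u * f - g, ?_, by ring, ?_⟩
  · rw [← D.lam_ker 1 1 _ (Submodule.sub_mem _ h1 hg1), D.lam_sub 1 2 _ _ h1 hg1, hg2, sub_self]
  · intro c hc b hb hfb
    have h4 : u * f ∈ D.VV 1 c hc b := by
      have := D.VV_mul (D.L_VV c hc hu) hfb
      simpa using this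
    have h5 : g ∈ D.VV 1 c hc b := D.VV_mono hb (D.L_VV c hc hg)
    exact Submodule.sub_mem _ h4 h5

/-- products of `m + 1` elements of a subspace of `H` -/
theorem prods (ax : D.Ax d) (H' : Submodule F K) (hH : H' ≤ D.H) (c : ℤ) (hc : 0 ≤ c) (b : ι → ℤ) (hb : ∀ i, b i ≤ 0)
    (hV : H' ≤ D.VV 1 c hc b) (m : ℕ) : ∀ x ∈ (D.L 0 0 1) ^ (m + 1), ∀ h ∈ H' ^ (m + 1),
      x * h ∈ (D.Ni (m + 1) (2 * (m + 1)) ⊓ D.VV (m + 1) c hc (fun i => (m : ℤ) * b i)) ⊔
        (D.Ni (m + 1) (m + 1) ⊓ D.VV (m + 1) c hc (fun i => ((m + 1 : ℕ) : ℤ) * b i)) := by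
  induction m with
  | zero =>
    intro x hx h hh
    rw [zero_add, pow_one] at hx hh
    obtain ⟨g, hg, π, hπ, h1, h2⟩ := D.gp ax (hH hh) hx
    rw [h1]
    refine Submodule.add_mem_sup ⟨(D.mem_L.1 hg).1, ?_⟩ ⟨hπ, ?_⟩
    · have := D.L_VV c hc hg
      simpa using this
    · have := h2 c hc b hb (hV hh)
      simpa using this
  | succ m ih =>
    intro x hx
    rw [pow_succ] at hx
    refine Submodule.mul_induction_on hx (fun x' hx' u hu => ?_) (fun x y hx hy h hh => ?_)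
    · intro h hh
      rw [pow_succ] at hh
      refine Submodule.mul_induction_on hh (fun h' hh' f hf => ?_) (fun y z hy hz => ?_)
      · obtain ⟨Y, ⟨hY1, hY2⟩, Z, ⟨hZ1, hZ2⟩, hYZ⟩ := Submodule.mem_sup.1 (ih x' hx' h' hh')
        obtain ⟨g, hg, π, hπ, h1, h2⟩ := D.gp ax (hH hf) hu
        have hπV := h2 c hc b hb (hV hf)
        have hg1 := (D.mem_L.1 hg).1
        have hgV := D.L_VV c hc hg
        have e : x' * u * (h' * f) = (Y * g + Y * π + Z * g) + Z * π := by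
          have : x' * u * (h' * f) = (x' * h') * (u * f) := by ring
          rw [this, ← hYZ, h1]; ring
        rw [e]
        refine Submodule.add_mem_sup (Submodule.add_mem _ (Submodule.add_mem _ ⟨?_, ?_⟩ ⟨?_, ?_⟩) ⟨?_, ?_⟩) ⟨?_, ?_⟩
        · exact D.mono' (by omega) (D.mul _ _ _ _ _ _ hY1 hg1)
        · refine D.VV_mono (fun i => ?_) (D.VV_mul hY2 hgV)
          have := hb i
          push_cast; nlinarith
        · exact D.mono' (by omega) (D.mul _ _ _ _ _ _ hY1 hπ)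
        · refine D.VV_mono (fun i => ?_) (D.VV_mul hY2 hπV)
          push_cast; nlinarith
        · exact D.mono' (by omega) (D.mul _ _ _ _ _ _ hZ1 hg1)
        · refine D.VV_mono (fun i => ?_) (D.VV_mul hZ2 hgV)
          push_cast; nlinarith
        · exact D.mul _ _ _ _ _ _ hZ1 hπ
        · refine D.VV_mono (fun i => ?_) (D.VV_mul hZ2 hπV)
          push_cast; nlinarith
      · have e : x' * u * (y + z) = x' * u * y + x' * u * z := by ring
        rw [e]; exact Submodule.add_mem _ hy hz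
    · have e : (x + y) * h = x * h + y * h := by ring
      rw [e]; exact Submodule.add_mem _ (hx h hh) (hy h hh)

theorem pow_Ni (H' : Submodule F K) (hH : H' ≤ D.H) : ∀ m, ∀ y ∈ H' ^ m, y ∈ D.Ni m m := by
  intro m
  induction m with
  | zero =>
    intro y hy
    rw [pow_zero, Submodule.one_eq_range] at hy
    obtain ⟨t, rfl⟩ := hy
    rw [Algebra.linearMap_apply, Algebra.algebraMap_eq_smul_one]
    exact (D.Ni 0 0).smul_mem t D.one
  | succ m ih =>
    intro y hy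
    rw [pow_succ] at hy
    refine Submodule.mul_induction_on hy (fun x' hx' u hu => ?_) (fun x y hx hy => Submodule.add_mem _ hx hy)
    exact D.mul _ _ _ _ _ _ (ih x' hx') (hH hu).1

/-- products of `B + 1` elements of `H'`, `B = q t`, are in `HH a N N` -/
theorem prod_HH (ax : D.Ax d) (H' : Submodule F K) (hH : H' ≤ D.H) (c : ℤ) (hc : 0 < c) (b : ι → ℤ) (hb : ∀ i, b i ≤ 0)
    (hV : H' ≤ D.VV 1 c hc.le b) (a B q : ℕ) (hq : B = q * D.t)
    (hab : ∀ i, c * (-(a : ℤ) * D.w i) ≤ (B : ℤ) * b i) (N : ℕ) (hN : B + 1 ≤ N)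
    (h : K) (hh : h ∈ H' ^ (B + 1)) : D.th ^ q * h ∈ D.HH a N N := by
  have hth : ∀ n f, f ∈ D.Ni (B + 1) n → D.th ^ q * f ∈ D.Ni 1 n := by
    intro n f hf
    refine D.th_pow_Ni q 1 n f ?_
    rwa [← hq, add_comm 1 B]
  refine ⟨D.mono' hN (hth _ _ (D.pow_Ni H' hH _ h hh)), fun x hx => ?_⟩
  obtain ⟨M, rfl⟩ := Nat.exists_eq_add_of_le hN
  rw [pow_add] at hx
  refine Submodule.mul_induction_on hx (fun x' hx' r hr => ?_) (fun x y hx hy => ?_)
  · have h1 := D.prods ax H' hH c hc.le b hb hV B x' hx' h hh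
    obtain ⟨Y, ⟨hY1, hY2⟩, Z, ⟨hZ1, _⟩, hYZ⟩ := Submodule.mem_sup.1 h1
    have hr1 := D.pow_L M hr
    have hr2 := (D.mem_L.1 hr1).1
    have e : x' * r * (D.th ^ q * h) = (D.th ^ q * Y) * r + (D.th ^ q * Z) * r := by
      have : x' * r * (D.th ^ q * h) = D.th ^ q * (x' * h) * r := by ring
      rw [this, ← hYZ]; ring
    rw [e]
    refine Submodule.add_mem_sup ?_ ?_
    · have hY : D.th ^ q * Y ∈ D.L 1 a (2 * (B + 1)) := by
        rw [D.mem_L]
        refine ⟨hth _ _ hY1, fun i h0 => ?_⟩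
        have hY0 : Y ≠ 0 := right_ne_zero_of_mul h0
        have h2 := hY2 i hY0
        have h3 := hab i
        have h4 : c * (-(a : ℤ) * D.w i) ≤ c * (D.v i Y + (B + 1 : ℕ) * D.u i) := h3.trans h2
        have h5 := le_of_mul_le_mul_left h4 hc
        rw [D.v_mul i _ _ (pow_ne_zero _ D.th_ne) hY0, D.v_th_pow]
        have h6 : (B : ℤ) = (q : ℤ) * D.t := by rw [hq]; push_cast; ring
        push_cast at h5 ⊢
        rw [h6] at h5
        linarith
      have := D.L_mul hY hr1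
      exact D.L_mono (by omega) (by omega) this
    · exact D.mul _ _ _ _ _ _ (hth _ _ hZ1) hr2
  · rw [add_mul]; exact Submodule.add_mem _ hx hy

end PP

end Pool.Agent.H60.AT
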